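import Mathlib

/-!
# From one scale to all scales (helper285)
-/

set_option autoImplicit false

namespace Run7.h285.X

open Finset Filter

/-- the scales -/
noncomputable def scal (t lam : ℝ) (j : ℕ) : ℕ := ⌈t * lam ^ j⌉₊

lemma scal_ge (t lam : ℝ) (j : ℕ) : t * lam ^ j ≤ scal t lam j := Nat.le_ceil _

lemma scal_lt (t lam : ℝ) (ht : 0 ≤ t) (hl : 0 ≤ lam) (j : ℕ) : (scal t lam j : ℝ) < t * lam ^ j + 1 :=
  Nat.ceil_lt_add_one (by positivity)

lemma scal_exists (t lam : ℝ) (ht : 0 < t) (hl : 1 < lam) (H : ℕ) (h0 : scal t lam 0 ≤ H) :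
    ∃ j : ℕ, scal t lam j ≤ H ∧ H < scal t lam (j + 1) := by
  have h1 : ∃ j : ℕ, H < scal t lam (j + 1) := by
    obtain ⟨n, hn⟩ := pow_unbounded_of_one_lt ((H : ℝ) / t) hl
    refine ⟨n, ?_⟩
    have h2 : (H : ℝ) < scal t lam (n + 1) := by
      refine lt_of_lt_of_le ?_ (scal_ge t lam (n + 1))
      rw [div_lt_iff₀ ht] at hn
      have h3 : lam ^ n ≤ lam ^ (n + 1) := pow_le_pow_right₀ hl.le (by omega)
      nlinarith
    exact_mod_cast h2
  classical
  refine ⟨Nat.find h1, ?_, Nat.find_spec h1⟩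
  rcases Nat.eq_zero_or_pos (Nat.find h1) with h2 | h2
  · rw [h2]; exact h0
  · have h3 := Nat.find_min h1 (m := Nat.find h1 - 1) (by omega)
    rw [not_lt, Nat.sub_add_cancel h2] at h3
    exact h3

/-- **all scales** from the scales `scal t lam j` -/
theorem all_scales (P W : ℕ → ℝ) (hP : Monotone P) (hW : Monotone W) (h l ε ε' lam t : ℝ) (hh : 0 < h) (hl : 0 < l)
    (hε0 : 0 < ε) (hε1 : ε ≤ 1) (hε' : 0 < ε') (hεε : ε' ≤ ε / 40) (hlam : lam = 1 + ε / 10) (ht : 10 / ε ≤ t)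
    (Al : ℕ → Prop) (hAl : ∀ j, Al j → |P (scal t lam j) - h * W (scal t lam j)| ≤ ε' * (h * W (scal t lam j)) ∧
      |W (scal t lam j) - scal t lam j / l| ≤ ε' * (scal t lam j / l)) (H : ℕ)
    (hH : scal t lam 0 ≤ H) (hHA : ∀ j, scal t lam j ≤ 2 * H → Al j) : |P H - h * W H| ≤ ε * (h * W H) := by
  have ht0 : 0 < t := lt_of_lt_of_le (by positivity) ht
  have hlam1 : 1 < lam := by rw [hlam]; have : 0 < ε / 10 := by positivity
                             linarith
  have hlam0 : 0 < lam := by linarith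
  obtain ⟨j, hj1, hj2⟩ := scal_exists t lam ht0 hlam1 H hH
  obtain ⟨a, ha⟩ : ∃ a, a = scal t lam j := ⟨_, rfl⟩
  obtain ⟨b, hb⟩ : ∃ b, b = scal t lam (j + 1) := ⟨_, rfl⟩
  have hA1 := hAl j (hHA j (by omega))
  have hx0 : 1 ≤ lam ^ j := one_le_pow₀ hlam1.le
  have hab : (b : ℝ) ≤ lam ^ 2 * a := by
    have h1 := scal_lt t lam ht0.le hlam0.le (j + 1)
    have h2 := scal_ge t lam j
    rw [← hb] at h1
    rw [← ha] at h2
    have h3 : (1 : ℝ) ≤ (lam ^ 2 - lam) * (t * lam ^ j) := by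
      have h4 : lam ^ 2 - lam = lam * (ε / 10) := by rw [hlam]; ring
      have h5 : 1 ≤ ε / 10 * t := by
        rw [div_le_iff₀ hε0] at ht
        linarith
      have h6 : ε / 10 * t ≤ ε / 10 * t * (lam * lam ^ j) := by
        apply le_mul_of_one_le_right (by positivity)
        nlinarith
      rw [h4]
      calc (1 : ℝ) ≤ ε / 10 * t * (lam * lam ^ j) := h5.trans h6
        _ = _ := by ring
    have h4 : t * lam ^ (j + 1) = lam * (t * lam ^ j) := by ring
    rw [h4] at h1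
    have h5 : lam ^ 2 * (t * lam ^ j) ≤ lam ^ 2 * a := mul_le_mul_of_nonneg_left h2 (by positivity)
    nlinarith
  have hb2 : b ≤ 2 * H := by
    have h1 : lam ^ 2 ≤ 2 := by
      rw [hlam]
      nlinarith
    have h2 : (b : ℝ) ≤ 2 * a := hab.trans (mul_le_mul_of_nonneg_right h1 (Nat.cast_nonneg _))
    have h3 : (a : ℝ) ≤ H := by rw [ha]; exact_mod_cast hj1
    have h4 : (b : ℝ) ≤ 2 * H := by linarith
    exact_mod_cast h4
  have hA2 := hAl (j + 1) (hHA (j + 1) (by omega))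
  rw [← ha] at hA1 hj1
  rw [← hb] at hA2 hj2
  have m1 := hP hj1
  have m2 := hP hj2.le
  have m3 := hW hj1
  have m4 := hW hj2.le
  obtain ⟨p1, w1⟩ := hA1
  obtain ⟨p2, w2⟩ := hA2
  have p1' := (abs_le.1 p1).1
  have p2' := (abs_le.1 p2).2
  have w1' := (abs_le.1 w1).1
  have w2' := (abs_le.1 w2).2
  have ha0 : 0 ≤ (a : ℝ) / l := by positivity
  have hab' : (b : ℝ) / l ≤ lam ^ 2 * (a / l) := by
    rw [← mul_div_assoc]
    exact div_le_div_of_nonneg_right hab hl.le
  -- W b ≤ (1 + ε / 2) W a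
  have hWa : (1 - ε') * ((a : ℝ) / l) ≤ W a := by linarith
  have hWa0 : 0 ≤ W a := le_trans (mul_nonneg (by linarith) ha0) hWa
  have hWb : W b ≤ (1 + ε') * (lam ^ 2 * (a / l)) := by
    have : (1 + ε') * ((b : ℝ) / l) ≤ (1 + ε') * (lam ^ 2 * (a / l)) := mul_le_mul_of_nonneg_left hab' (by linarith)
    linarith
  have hlam2 : lam ^ 2 ≤ 1 + 21 / 100 * ε := by
    rw [hlam]
    nlinarith
  have hWba : W b ≤ (1 + ε / 2) * W a := by
    have h1 : (1 + ε') * (lam ^ 2 * ((a : ℝ) / l)) ≤ (1 + ε / 40) * ((1 + 21 / 100 * ε) * (a / l)) := by gcongr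
    have h2 : (1 + ε / 2) * ((1 - ε / 40) * ((a : ℝ) / l)) ≤ (1 + ε / 2) * W a := by
      apply mul_le_mul_of_nonneg_left _ (by positivity)
      refine le_trans ?_ hWa
      apply mul_le_mul_of_nonneg_right _ ha0
      linarith
    have h3 : (1 + ε / 40) * ((1 + 21 / 100 * ε) * ((a : ℝ) / l)) ≤ (1 + ε / 2) * ((1 - ε / 40) * (a / l)) := by
      have h4 : (1 + ε / 40) * (1 + 21 / 100 * ε) ≤ (1 + ε / 2) * (1 - ε / 40) := by nlinarith
      have := mul_le_mul_of_nonneg_right h4 ha0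
      linarith
    linarith
  have hhWa : 0 ≤ h * W a := by positivity
  have hhWH : h * W a ≤ h * W H := mul_le_mul_of_nonneg_left m3 hh.le
  have hhWb : h * W b ≤ (1 + ε / 2) * (h * W a) := by
    have := mul_le_mul_of_nonneg_left hWba hh.le
    linarith
  have hhWHb : h * W H ≤ h * W b := mul_le_mul_of_nonneg_left m4 hh.le
  rw [abs_le]
  constructor
  · -- h W H - P H ≤ h W b - P a
    have h1 : ε' * (h * W a) ≤ ε / 40 * (h * W a) := mul_le_mul_of_nonneg_right hεε hhWa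
    have h2 : ε * (h * W a) ≤ ε * (h * W H) := mul_le_mul_of_nonneg_left hhWH hε0.le
    nlinarith
  · have h1 : ε' * (h * W b) ≤ ε / 40 * ((1 + ε / 2) * (h * W a)) := by
      have h0 : 0 ≤ h * W b := le_trans (le_trans hhWa hhWH) hhWHb
      calc ε' * (h * W b) ≤ ε / 40 * (h * W b) := mul_le_mul_of_nonneg_right hεε h0
        _ ≤ _ := mul_le_mul_of_nonneg_left hhWb (by positivity)
    have h2 : ε * (h * W a) ≤ ε * (h * W H) := mul_le_mul_of_nonneg_left hhWH hε0.le
    have h3 : ε / 40 * ((1 + ε / 2) * (h * W a)) ≤ ε / 20 * (h * W a) := by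
      have : ε / 40 * (1 + ε / 2) ≤ ε / 20 := by nlinarith
      have := mul_le_mul_of_nonneg_right this hhWa
      linarith
    linarith

/-- the sum of the reciprocals of the scales -/
lemma sum_inv (t lam : ℝ) (ht : 0 < t) (hl : 1 < lam) (J : ℕ) :
    ∑ j ∈ range J, 1 / (scal t lam j : ℝ) ≤ 1 / t * (lam / (lam - 1)) := by
  have hl0 : 0 < lam := by linarith
  have h1 : ∀ j ∈ range J, 1 / (scal t lam j : ℝ) ≤ 1 / t * (1 / lam) ^ j := by
    intro j _
    rw [one_div_pow, one_div_mul_one_div]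
    apply one_div_le_one_div_of_le (by positivity)
    have := scal_ge t lam j
    linarith
  refine (sum_le_sum h1).trans ?_
  rw [← mul_sum]
  apply mul_le_mul_of_nonneg_left _ (by positivity)
  have h2 : 0 ≤ 1 / lam := by positivity
  have h3 : 1 / lam < 1 := by rw [div_lt_one hl0]; exact hl
  have h4 := (summable_geometric_of_lt_one h2 h3).sum_le_tsum (range J) (fun i _ => by positivity)
  rw [tsum_geometric_of_lt_one h2 h3] at h4
  refine h4.trans (le_of_eq ?_)
  have : lam - 1 ≠ 0 := by linarith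
  field_simp

/-- the number of the scales up to `Y` -/
lemma num_scales (t lam Y : ℝ) (ht : 1 ≤ t) (hl : 1 < lam) (j : ℕ) (h : (scal t lam j : ℝ) ≤ Y) :
    (j : ℝ) ≤ Real.log Y / Real.log lam := by
  have hl0 : 0 < lam := by linarith
  have h1 := scal_ge t lam j
  have h2 : lam ^ j ≤ Y := by
    have : 1 * lam ^ j ≤ t * lam ^ j := mul_le_mul_of_nonneg_right ht (by positivity)
    linarith
  have h3 := Real.log_le_log (by positivity) h2
  rw [Real.log_pow] at h3
  rw [le_div_iff₀ (Real.log_pos hl)]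
  exact h3

end Run7.h285.X
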