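import Pool.Agent.Run7.h285.X.Max

/-!
# One exceptional set for all scales (helper285)
-/

set_option autoImplicit false

namespace Run7.h285.X

open Finset Filter

lemma card_ex {α : Type*} [DecidableEq α] (S : Finset α) (J : ℕ) (Q : ℕ → α → Prop) [∀ j, DecidablePred (Q j)]
    [DecidablePred (fun s => ∃ j ∈ range J, Q j s)] (F : ℕ → ℝ)
    (h : ∀ j ∈ range J, (#(S.filter (Q j)) : ℝ) ≤ F j) :
    (#(S.filter (fun s => ∃ j ∈ range J, Q j s)) : ℝ) ≤ ∑ j ∈ range J, F j := by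
  have h1 : S.filter (fun s => ∃ j ∈ range J, Q j s) ⊆ (range J).biUnion fun j => S.filter (Q j) := by
    intro s hs
    rw [mem_filter] at hs
    obtain ⟨j, hj, hq⟩ := hs.2
    exact mem_biUnion.2 ⟨j, hj, mem_filter.2 ⟨hs.1, hq⟩⟩
  have h2 := (card_le_card h1).trans card_biUnion_le
  have h3 : (#(S.filter (fun s => ∃ j ∈ range J, Q j s)) : ℝ) ≤ ∑ j ∈ range J, (#(S.filter (Q j)) : ℝ) := by exact_mod_cast h2
  exact h3.trans (sum_le_sum h)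

lemma card_or {α : Type*} [DecidableEq α] (S : Finset α) (p q : α → Prop) [DecidablePred p] [DecidablePred q] (x y : ℝ)
    (hp : (#(S.filter p) : ℝ) ≤ x) (hq : (#(S.filter q) : ℝ) ≤ y) :
    (#(S.filter (fun s => p s ∨ q s)) : ℝ) ≤ x + y := by
  rw [filter_or]
  have h1 := card_union_le (S.filter p) (S.filter q)
  have h2 : (#(S.filter p ∪ S.filter q) : ℝ) ≤ #(S.filter p) + #(S.filter q) := by exact_mod_cast h1
  linarith

lemma sum_ar (XM l L t lam Kf LJ ε : ℝ) (J : ℕ) (hXM : 0 ≤ XM) (hl : 1 ≤ l) (hL : 0 < L) (ht : 0 < t) (hlam : 1 < lam) (hKf : 0 ≤ Kf)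
    (hJ : (J : ℝ) ≤ LJ * l) (h1 : Kf * (L / t * (lam / (lam - 1))) ≤ ε / 8) (h2 : LJ * (Kf + 3) / l ≤ ε / 16) :
    ∑ j ∈ range J, XM * (Kf * (L / (scal t lam j : ℝ) + 1 / l ^ 2) + 3 / l ^ 2) ≤ XM * (3 * ε / 16) := by
  have hl0 : 0 < l := by linarith
  have e1 : ∑ j ∈ range J, XM * (Kf * (L / (scal t lam j : ℝ) + 1 / l ^ 2) + 3 / l ^ 2) =
      XM * (Kf * L * ∑ j ∈ range J, 1 / (scal t lam j : ℝ) + J * ((Kf + 3) / l ^ 2)) := by
    rw [← mul_sum, sum_add_distrib, ← mul_sum, sum_add_distrib, sum_const, sum_const, card_range, nsmul_eq_mul,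
      nsmul_eq_mul]
    have e2 : ∑ j ∈ range J, L / (scal t lam j : ℝ) = L * ∑ j ∈ range J, 1 / (scal t lam j : ℝ) := by
      rw [mul_sum]
      exact sum_congr rfl fun j _ => by ring
    rw [e2]
    ring
  rw [e1]
  apply mul_le_mul_of_nonneg_left _ hXM
  have h3 := mul_le_mul_of_nonneg_left (sum_inv t lam ht hlam J) (show 0 ≤ Kf * L by positivity)
  have h4 : Kf * L * (1 / t * (lam / (lam - 1))) = Kf * (L / t * (lam / (lam - 1))) := by ring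
  rw [h4] at h3
  have h5 : (J : ℝ) * ((Kf + 3) / l ^ 2) ≤ (LJ * l) * ((Kf + 3) / l ^ 2) :=
    mul_le_mul_of_nonneg_right hJ (by positivity)
  have h6 : (LJ * l) * ((Kf + 3) / l ^ 2) = LJ * (Kf + 3) / l := by field_simp
  linarith

lemma sum_br (XM l k Kz KD ε J : ℝ) (hXM : 0 ≤ XM) (hl : 1 ≤ l) (hk : 1 ≤ k) (hKz : 0 < Kz) (hKD : 0 < KD) (hε : 0 < ε)
    (hJ : J ≤ KD * k) (hkl : k ^ 4 ≤ l) (hkK : 64 * ((KD + 1) * Kz) / ε ≤ k) :
    J * (XM * (Kz * (1 / √l + 1 / k ^ 2))) + XM * (Kz * (1 / √l + 1 / k ^ 2)) ≤ XM * (ε / 16) := by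
  have hl0 : 0 < l := by linarith
  have hsq : 0 < √l := Real.sqrt_pos.2 hl0
  have hk0 : 0 < k := by linarith
  have hs2 : (KD + 1) * k * (Kz * (1 / √l + 1 / k ^ 2)) ≤ ε / 16 := by
    have h4 : k ^ 2 ≤ √l := by
      apply Real.le_sqrt_of_sq_le
      rw [← pow_mul]; exact hkl
    have h5 : 1 / √l ≤ 1 / k ^ 2 := one_div_le_one_div_of_le (by positivity) h4
    have h6 : (KD + 1) * k * (Kz * (1 / √l + 1 / k ^ 2)) ≤ (KD + 1) * k * (Kz * (1 / k ^ 2 + 1 / k ^ 2)) := by gcongr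
    have h7 : (KD + 1) * k * (Kz * (1 / k ^ 2 + 1 / k ^ 2)) = 2 * ((KD + 1) * Kz) / k := by field_simp; ring
    refine h6.trans ?_
    rw [h7, div_le_iff₀ hk0]
    rw [div_le_iff₀ hε] at hkK
    have h9 : 0 < (KD + 1) * Kz := by positivity
    linarith
  have hp : 0 ≤ Kz * (1 / √l + 1 / k ^ 2) := by positivity
  have h4 : (J + 1) * (Kz * (1 / √l + 1 / k ^ 2)) ≤ (KD + 1) * k * (Kz * (1 / √l + 1 / k ^ 2)) := by
    apply mul_le_mul_of_nonneg_right _ hp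
    nlinarith
  have h5 := mul_le_mul_of_nonneg_left (h4.trans hs2) hXM
  linarith

open Classical in
/-- **one exceptional set for all scales** -/
theorem max_abs {α : Type*} (S : Finset α) (bad0 : α → Prop) (bad1 bad2 : ℕ → α → Prop)
    (Al : ℕ → Prop) (XM l L k ε T lam Kf Kz LJ KD Y : ℝ) (D HD : ℕ) (hXM : 0 < XM) (hl : 1 ≤ l) (hlL : l ≤ L)
    (hk : k = Real.log l) (hk2 : 1 ≤ k) (hε : 0 < ε) (hT : 1 ≤ T) (hlam : 1 < lam) (hKf : 0 < Kf) (hKz : 0 < Kz)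
    (hLJ : LJ = 1 / Real.log lam + 1) (hKD : KD = (D : ℝ) / Real.log lam + 1)
    (hTK : Kf * (1 / T * (lam / (lam - 1))) ≤ ε / 8) (hY : Real.log Y = l) (hAlY : ∀ G : ℕ, Al G → (G : ℝ) ≤ Y)
    (hlJ : 16 * (LJ * (Kf + 3)) / ε ≤ l) (hkK : 64 * ((KD + 1) * Kz) / ε ≤ k) (hkl : k ^ 4 ≤ l)
    (hHD1 : L ≤ HD) (hHD2 : (HD : ℝ) ≤ l ^ D)
    (c0 : (#(S.filter bad0) : ℝ) ≤ ε / 4 * XM)
    (c1 : ∀ G : ℕ, L ≤ G → Al G → (#(S.filter (bad1 G)) : ℝ) ≤ XM * (Kf * (L / G + 1 / l ^ 2) + 3 / l ^ 2))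
    (c2 : ∀ G : ℕ, L ≤ G → (G : ℝ) ≤ l ^ D → Al G →
      (#(S.filter (bad2 G)) : ℝ) ≤ XM * (Kz * (1 / √l + 1 / k ^ 2))) :
    ∃ Bad ⊆ S, (#Bad : ℝ) ≤ ε * XM ∧ ∀ p ∈ S, p ∉ Bad → ¬ bad0 p ∧
      (∀ j, Al (scal (T * L) lam j) → ¬ bad1 (scal (T * L) lam j) p) ∧
      (∀ j, Al (scal (T * L) lam j) → (scal (T * L) lam j : ℝ) ≤ l ^ D → ¬ bad2 (scal (T * L) lam j) p) ∧
      (Al HD → ¬ bad2 HD p) := by
  have hl0 : 0 < l := by linarith
  have hL0 : 0 < L := by linarith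
  have hT0 : 0 < T := by linarith
  have hk0 : 0 < k := by linarith
  have hsq : 0 < √l := Real.sqrt_pos.2 hl0
  have hloglam : 0 < Real.log lam := Real.log_pos hlam
  have hKD0 : 0 < KD := by rw [hKD]; positivity
  obtain ⟨t, ht⟩ : ∃ t, t = T * L := ⟨_, rfl⟩
  rw [← ht]
  have htL : L ≤ t := by rw [ht]; nlinarith
  have ht0 : 0 < t := by linarith
  have ht1 : 1 ≤ t := by linarith
  have hscl : ∀ j, L ≤ (scal t lam j : ℝ) := by
    intro j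
    refine le_trans ?_ (scal_ge t lam j)
    have : 1 ≤ lam ^ j := one_le_pow₀ hlam.le
    nlinarith
  obtain ⟨J, hJ⟩ : ∃ J : ℕ, J = ⌊l / Real.log lam⌋₊ + 1 := ⟨_, rfl⟩
  obtain ⟨J₂, hJ₂⟩ : ∃ J₂ : ℕ, J₂ = ⌊(D : ℝ) * k / Real.log lam⌋₊ + 1 := ⟨_, rfl⟩
  have hJl : (J : ℝ) ≤ LJ * l := by
    rw [hJ]; push_cast
    have h4 := Nat.floor_le (show 0 ≤ l / Real.log lam by positivity)
    rw [hLJ]
    have : (1 / Real.log lam + 1) * l = l / Real.log lam + l := by ring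
    linarith
  have hJ₂l : (J₂ : ℝ) ≤ KD * k := by
    rw [hJ₂]; push_cast
    have h4 := Nat.floor_le (show 0 ≤ (D : ℝ) * k / Real.log lam by positivity)
    rw [hKD]
    have : ((D : ℝ) / Real.log lam + 1) * k = (D : ℝ) * k / Real.log lam + k := by ring
    linarith
  have hjJ : ∀ j, Al (scal t lam j) → j < J := by
    intro j hj
    have h4 := num_scales t lam Y ht1 hlam j (hAlY _ hj)
    rw [hY] at h4
    rw [hJ, Nat.lt_add_one_iff]
    exact Nat.le_floor h4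
  have hjJ₂ : ∀ j, (scal t lam j : ℝ) ≤ l ^ D → j < J₂ := by
    intro j hj
    have h4 := num_scales t lam (l ^ D) ht1 hlam j hj
    rw [Real.log_pow, ← hk] at h4
    rw [hJ₂, Nat.lt_add_one_iff]
    exact Nat.le_floor h4
  have c1' : ∀ j ∈ range J, (#(S.filter (fun p => Al (scal t lam j) ∧ bad1 (scal t lam j) p)) : ℝ) ≤
      XM * (Kf * (L / (scal t lam j : ℝ) + 1 / l ^ 2) + 3 / l ^ 2) := by
    intro j _
    by_cases hA : Al (scal t lam j)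
    · refine le_trans ?_ (c1 _ (hscl j) hA)
      apply Nat.cast_le.2
      apply card_le_card
      intro p hp
      rw [mem_filter] at hp ⊢
      exact ⟨hp.1, hp.2.2⟩
    · have : S.filter (fun p => Al (scal t lam j) ∧ bad1 (scal t lam j) p) = ∅ :=
        filter_eq_empty_iff.2 fun p _ h => hA h.1
      rw [this, card_empty, Nat.cast_zero]
      positivity
  have c2g : ∀ G : ℕ, L ≤ G → (#(S.filter (fun p => (G : ℝ) ≤ l ^ D ∧ (Al G ∧ bad2 G p))) : ℝ) ≤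
      XM * (Kz * (1 / √l + 1 / k ^ 2)) := by
    intro G hG
    by_cases hA : (G : ℝ) ≤ l ^ D ∧ Al G
    · refine le_trans ?_ (c2 G hG hA.1 hA.2)
      apply Nat.cast_le.2
      apply card_le_card
      intro p hp
      rw [mem_filter] at hp ⊢
      exact ⟨hp.1, hp.2.2.2⟩
    · have : S.filter (fun p => (G : ℝ) ≤ l ^ D ∧ (Al G ∧ bad2 G p)) = ∅ :=
        filter_eq_empty_iff.2 fun p _ h => hA ⟨h.1, h.2.1⟩
      rw [this, card_empty, Nat.cast_zero]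
      positivity
  have d1 := card_ex S J (fun j p => Al (scal t lam j) ∧ bad1 (scal t lam j) p) _ c1'
  have d2 := card_ex S J₂ (fun j p => (scal t lam j : ℝ) ≤ l ^ D ∧ (Al (scal t lam j) ∧ bad2 (scal t lam j) p))
    (fun _ => XM * (Kz * (1 / √l + 1 / k ^ 2))) (fun j _ => c2g _ (hscl j))
  have d3 := c2g HD hHD1
  have dd := card_or S _ _ _ _ c0 (card_or S _ _ _ _ d1 (card_or S _ _ _ _ d2 d3))
  have hs1 := sum_ar XM l L t lam Kf LJ ε J hXM.le hl hL0 ht0 hlam hKf.le hJl (by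
    have : L / t = 1 / T := by rw [ht]; field_simp
    rw [this]; exact hTK) (by
    rw [div_le_iff₀ hl0]
    rw [div_le_iff₀ hε] at hlJ
    linarith)
  have hs3 := sum_br XM l k Kz KD ε J₂ hXM.le hl hk2 hKz hKD0 hε hJ₂l hkl hkK
  rw [sum_const, card_range, nsmul_eq_mul] at dd
  refine ⟨_, filter_subset _ _, dd.trans ?_, ?_⟩
  · have h5 : 0 < ε * XM := by positivity
    linarith
  · intro p hp hbad
    rw [mem_filter] at hbad
    have hbad' : ¬ (bad0 p ∨ (∃ j ∈ range J, Al (scal t lam j) ∧ bad1 (scal t lam j) p) ∨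
      (∃ j ∈ range J₂, (scal t lam j : ℝ) ≤ l ^ D ∧ (Al (scal t lam j) ∧ bad2 (scal t lam j) p)) ∨
      ((HD : ℝ) ≤ l ^ D ∧ (Al HD ∧ bad2 HD p))) := fun h => hbad ⟨hp, h⟩
    rw [not_or, not_or, not_or] at hbad'
    obtain ⟨g0, g1, g2, g3⟩ := hbad'
    exact ⟨g0, fun j hj hb => g1 ⟨j, mem_range.2 (hjJ j hj), hj, hb⟩,
      fun j hj hsm hb => g2 ⟨j, mem_range.2 (hjJ₂ j hsm), hsm, hj, hb⟩, fun hA hb => g3 ⟨hHD2, hA, hb⟩⟩

end Run7.h285.X
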